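import Pool.Agent.U975.RG.Gen

/-!
# Split embedding problems with restricted new ramification
-/

set_option autoImplicit false

namespace Pool.Agent.U975.RG

open Pool.Agent.W258.FM Function Pool.Agent.U975.RM Pool.Agent.U975.RE NumberField

section

variable {K F₁ F M : Type} [Field K] [Field F₁] [Field F] [Field M] [Algebra K F₁] [Algebra K F]
  [Algebra K M] [Algebra F₁ F] [Algebra F M] [IsScalarTower K F₁ F] [IsScalarTower K F M]
  [IsGalois K F₁] [IsGalois K F] [IsGalois K M]

/-- no new real ramification -/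
theorem unram {k : ℕ} (hk : 2 ≤ k)
    (hlift : LiftsOn (AlgEquiv.restrictNormalHom (F := K) (K₁ := M) F)
      (AlgEquiv.restrictNormalHom (F := K) (K₁ := F) F₁).ker k) (w : InfinitePlace F) :
    w.IsUnramified F₁ := by
  have hG : IsGalois F₁ F := IsGalois.tower_top_of_isGalois K F₁ F
  have hM : Algebra.IsAlgebraic F M := Algebra.IsAlgebraic.tower_top (K := K) F
  rw [← InfinitePlace.mk_embedding w, InfinitePlace.isUnramified_mk_iff_forall_isConj]
  intro τ hτ
  set φ := w.embedding with hφ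
  set ψ := ComplexEmbedding.lift M φ with hψ
  have hψφ : ψ.comp (algebraMap F M) = φ := ComplexEmbedding.lift_comp_algebraMap M φ
  have hψx : ∀ x : F, ψ (algebraMap F M x) = φ x := fun x => by rw [← hψφ]; rfl
  have hφτ : ∀ x : F, φ (τ x) = (starRingEnd ℂ) (φ x) := fun x => hτ.eq x
  obtain ⟨σ, hσ⟩ := ComplexEmbedding.exists_comp_symm_eq_of_comp_eq (k := K) ψ
    (ComplexEmbedding.conjugate ψ) (by
      ext x
      have h1 : algebraMap K M x = algebraMap F M (algebraMap F₁ F (algebraMap K F₁ x)) := by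
        rw [← IsScalarTower.algebraMap_apply K F₁ F, ← IsScalarTower.algebraMap_apply]
      show ψ (algebraMap K M x) = (starRingEnd ℂ) (ψ (algebraMap K M x))
      rw [h1, hψx, ← hφτ, τ.commutes])
  have hconj : ComplexEmbedding.IsConj ψ (σ.symm) := hσ.symm
  set y : Gal(M/K) := σ.symm with hy
  have hyy : y * y = 1 := by
    ext x
    exact ComplexEmbedding.isConj_apply_apply hconj x
  -- `y` restricts to `τ`
  have hyτ : AlgEquiv.restrictNormalHom (F := K) (K₁ := M) F y = τ.restrictScalars K := by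
    ext x
    apply φ.injective
    show φ (AlgEquiv.restrictNormal y F x) = φ (τ x)
    rw [← hψx, AlgEquiv.restrictNormal_commutes y F x, hφτ, ← hψx]
    exact hconj.eq _
  have hN : AlgEquiv.restrictNormalHom (F := K) (K₁ := M) F y ∈
      (AlgEquiv.restrictNormalHom (F := K) (K₁ := F) F₁).ker := by
    rw [hyτ, MonoidHom.mem_ker]
    ext z
    apply (algebraMap F₁ F).injective
    have h1 : algebraMap F₁ F (AlgEquiv.restrictNormalHom (F := K) F₁ (τ.restrictScalars K) z) =
        (τ.restrictScalars K) (algebraMap F₁ F z) := AlgEquiv.restrictNormal_commutes _ F₁ z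
    rw [h1]
    exact τ.commutes z
  have h1 := involution_dies _ hk _ hlift hyy hN
  rw [hyτ] at h1
  ext x
  exact DFunLike.congr_fun h1 x

end

/-- the residue field is large -/
lemma card_root {R : Type} [CommRing R] [Finite R] [Nontrivial R] {n : ℕ} {ζ : R}
    (hζ : IsPrimitiveRoot ζ n) (hn : n ≠ 0) : n ≤ Nat.card R := by
  have hu := hζ.isUnit hn
  have h1 : orderOf hu.unit = n := by
    rw [← hζ.eq_orderOf.symm]
    exact (orderOf_units (y := hu.unit)).symm
  rw [← h1]
  calc orderOf hu.unit ≤ Nat.card Rˣ := Nat.le_of_dvd Nat.card_pos (orderOf_dvd_natCard _)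
    _ ≤ Nat.card R := Nat.card_le_card_of_injective _ Units.val_injective

/-- split embedding problems with restricted new ramification -/
theorem exists_restricted {K F₁ : Type} [Field K] [Field F₁] [Algebra K F₁]
    [FiniteDimensional K F₁] [IsGalois K F₁]
    (hK : ∀ (G : Type) [Group G] [Finite G] (α : G →* Gal(F₁/K)), Surjective α →
      (∃ s : Gal(F₁/K) →* G, ∀ x, α (s x) = x) → Solvable K F₁ G α)
    (G : Type) [Group G] [Finite G] (α : G →* Gal(F₁/K)) (hα : Surjective α)
    (hs : ∃ s : Gal(F₁/K) →* G, ∀ x, α (s x) = x) (k b : ℕ) :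
    ∃ (F : Type) (_ : Field F) (_ : Algebra K F) (_ : Algebra F₁ F) (_ : IsScalarTower K F₁ F),
      FiniteDimensional K F ∧ IsGalois K F ∧
      (∃ γ : Gal(F/K) ≃* G, ∀ σ : Gal(F/K), α (γ σ) = σ.restrictNormal F₁) ∧
      (∀ w : InfinitePlace F, w.IsUnramified F₁) ∧
      ∀ (A : Type) [CommRing A] [IsDedekindDomain A] [Algebra A K] [IsFractionRing A K]
        [Algebra A F] [IsScalarTower A K F] (P : Ideal (integralClosure A F)), P.IsMaximal →
        P ≠ ⊥ → ∀ l : ℕ, l.Prime → (l : integralClosure A F) ∉ P →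
        l ∣ Nat.card (P.inertia Gal(F/K) ⊓
          (AlgEquiv.restrictNormalHom (F := K) (K₁ := F) F₁).ker : Subgroup Gal(F/K)) →
        (∃ ζ : integralClosure A F ⧸ P, IsPrimitiveRoot ζ (l ^ k)) ∧
        (Finite (A ⧸ P.under A) → b < Nat.card (A ⧸ P.under A)) := by
  obtain ⟨M, i1, i2, i3, i4, F, j1, j2, j3, j4, j5, j6, j7, γ, hγ, hlift⟩ :=
    exists_big hK G α hα hs (2 + k + b ^ Nat.card G) (by omega)
  have hfd : FiniteDimensional K F := FiniteDimensional.left K F M
  refine ⟨F, j1, j2, j6, j7, hfd, j5, ⟨γ, hγ⟩, unram (by omega) hlift, ?_⟩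
  intro A _ _ _ _ _ _ P hP hP0 l hl hlP hd
  obtain ⟨ζ, hζ⟩ := root_closure (M := M) (F₁ := F₁) (by omega) hlift P hP hP0 hl hlP hd
  have hlpos : 0 < l ^ (2 + k + b ^ Nat.card G) := pow_pos hl.pos _
  refine ⟨⟨ζ ^ (l ^ (2 + b ^ Nat.card G)), hζ.pow hlpos ?_⟩, ?_⟩
  · rw [← pow_add]
    congr 1
    ring
  · intro hfA
    by_contra hcon
    push Not at hcon
    have hfrac := IsFractionRing.injective A K
    have hfinAB : Module.Finite A (integralClosure A F) :=
      IsIntegralClosure.finite A K F (integralClosure A F)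
    have hfinB : Finite (integralClosure A F ⧸ P) :=
      Module.finite_of_finite (A ⧸ P.under A)
    have hnt : Nontrivial (integralClosure A F ⧸ P) := Ideal.Quotient.nontrivial_iff.2 hP.ne_top
    have h1 := card_le_closure (K := K) P hP
    have h2 := card_root hζ hlpos.ne'
    have h3 : Nat.card Gal(F/K) = Nat.card G := Nat.card_congr γ.toEquiv
    rw [h3] at h1
    have h4 : Nat.card (A ⧸ P.under A) ^ Nat.card G ≤ b ^ Nat.card G :=
      Nat.pow_le_pow_left hcon _
    have h5 : 2 + k + b ^ Nat.card G < 2 ^ (2 + k + b ^ Nat.card G) := Nat.lt_two_pow_self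
    have h6 : 2 ^ (2 + k + b ^ Nat.card G) ≤ l ^ (2 + k + b ^ Nat.card G) :=
      Nat.pow_le_pow_left hl.two_le _
    omega

end Pool.Agent.U975.RG
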