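import Pool.Agent.U975.RG.Root
import Pool.Agent.U975.RM.Descent

/-!
# The restriction on tame ramification, with arbitrary residue fields
-/

set_option autoImplicit false

namespace Pool.Agent.U975.RG

open Pool.Agent.W258.FM Function Pool.Agent.U975.RM Pool.Agent.U975.RE
open scoped Pointwise

section descent

variable {B C : Type*} [CommRing B] [CommRing C] [Algebra B C] {H Γ : Type} [Group H] [Group Γ]
  [Finite Γ] [MulSemiringAction H B] [MulSemiringAction Γ C]

attribute [local instance] Ideal.Quotient.field in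
/-- descent of roots of unity -/
theorem root_mod (P : Ideal B) (Q : Ideal C) [hP : P.IsMaximal] [hQ : Q.IsMaximal] [Q.LiesOver P]
    (G' : Type) [Group G'] [Finite G'] [MulSemiringAction G' C] [SMulCommClass G' B C]
    [Algebra.IsInvariant B C G'] {n : ℕ} (hn : (n : B) ∉ P) {ζ : C ⧸ Q} (hζ : IsPrimitiveRoot ζ n)
    (hfix : ∀ g : G', (g • Q = Q) → ∀ t : C, ζ = Ideal.Quotient.mk Q t →
      Ideal.Quotient.mk Q (g • t) = ζ) :
    ∃ ζ' : B ⧸ P, IsPrimitiveRoot ζ' n := by
  have hnorm : Normal (B ⧸ P) (C ⧸ Q) := Ideal.Quotient.normal G' P Q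
  have hn' : (n : B ⧸ P) ≠ 0 := by
    intro h
    apply hn
    rw [← Ideal.Quotient.eq_zero_iff_mem, map_natCast]
    exact h
  obtain ⟨ζ', h1, -⟩ := root_descends hn' hζ (by
    intro σ
    obtain ⟨g, hg⟩ := Ideal.Quotient.stabilizerHom_surjective G' P Q σ
    obtain ⟨t, ht⟩ := Ideal.Quotient.mk_surjective (I := Q) ζ
    have h2 : σ (Ideal.Quotient.mk Q t) = Ideal.Quotient.mk Q ((g : G') • t) := by
      rw [← hg]
      rfl
    rw [← ht, h2, ht]
    exact hfix g g.2 t ht.symm)
  exact ⟨ζ', h1⟩

/-- **Restriction on tame ramification**: if `res` has the lifting property for `k` on `N`, then the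
residue fields `B / P` contain primitive `l ^ k`-th roots of unity for the primes `l` prime to the
residue characteristic dividing the order of the intersection of the inertia group with `N`. -/
theorem tame_root [IsDedekindDomain B] [IsDedekindDomain C] [Finite H] [FaithfulSMul H B]
    [FaithfulSMul Γ C] [Algebra.IsIntegral B C] [FaithfulSMul B C] (res : Γ →* H)
    (hres : Surjective res) (hc : ∀ g b, algebraMap B C (res g • b) = g • algebraMap B C b)
    (hinv : ∀ c : C, (∀ g : Γ, res g = 1 → g • c = c) → ∃ b : B, algebraMap B C b = c)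
    {k : ℕ} (hk : 0 < k) (N : Subgroup H) (hlift : LiftsOn res N k)
    (P : Ideal B) (hP : P.IsMaximal) (hP0 : P ≠ ⊥) {l : ℕ} (hl : l.Prime) (hlP : (l : B) ∉ P)
    (hdvd : l ∣ Nat.card (inerGroup (G := H) P ⊓ N : Subgroup H)) :
    ∃ ζ : B ⧸ P, IsPrimitiveRoot ζ (l ^ k) := by
  classical
  obtain ⟨Q, hQmax, hQP⟩ := Ideal.exists_maximal_ideal_liesOver_of_isIntegral (S := C) P
  have hQ : Q.IsPrime := hQmax.isPrime
  have hQ0 : Q ≠ ⊥ := Ideal.ne_bot_of_liesOver_of_ne_bot hP0 Q
  have hlQ : (l : C) ∉ Q := by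
    intro h
    apply hlP
    rw [Ideal.mem_of_liesOver Q P, map_natCast]
    exact h
  obtain ⟨ρ, hρ⟩ := exists_tame_char (G := H) hP hP0 hl hlP
    (inerGroup (G := H) P ⊓ N) inf_le_left hdvd
  have hfl : Fact l.Prime := ⟨hl⟩
  obtain ⟨y, hy⟩ := hρ (Multiplicative.ofAdd (1 : ZMod l))
  have hy1 : ρ y ≠ 1 := by
    rw [hy]
    intro h
    have h2 : (1 : ZMod l) = 0 := congrArg Multiplicative.toAdd h
    exact one_ne_zero h2
  obtain ⟨z, hz, hzI⟩ := inertia_surj res hres hc hinv P Q y y.2.1
  obtain ⟨ζ, hζ, hfix⟩ := exists_root res hk N hlift hQmax hQ0 hl hlQ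
    (inerGroup (G := H) P ⊓ N) inf_le_right ρ hzI (by rw [hz]; exact y.2) (by
      intro h
      apply hy1
      rw [← h]
      congr 1
      exact Subtype.ext hz.symm)
  have hcomm : SMulCommClass res.ker B C := by
    constructor
    intro n b c
    have h1 : (n : Γ) • algebraMap B C b = algebraMap B C b := by
      rw [← hc, show res (n : Γ) = 1 from n.2, one_smul]
    rw [Algebra.smul_def, Algebra.smul_def, smul_mul']
    congr 1
  have hI : Algebra.IsInvariant B C res.ker := by
    constructor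
    intro c hcn
    exact hinv c fun g hg => hcn ⟨g, hg⟩
  refine root_mod P Q res.ker ?_ hζ ?_
  · intro h
    rw [Nat.cast_pow] at h
    exact hlP (hP.isPrime.mem_of_pow_mem _ h)
  · intro g hg t ht
    have hg' : (g : Γ) • Q = Q := hg
    refine hfix g g.2 ?_ ?_ t ht
    · intro x hx
      rw [← hg']
      exact Ideal.smul_mem_pointwise_smul _ _ _ hx
    · intro x hx
      have h5 : (g : Γ)⁻¹ • Q = Q := by
        rw [inv_smul_eq_iff]
        exact hg'.symm
      rw [← h5]
      exact Ideal.smul_mem_pointwise_smul _ _ _ hx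

end descent

end Pool.Agent.U975.RG
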