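import Pool.Agent.U975.RE.Real
import Pool.Agent.U975.RG.Descent

/-!
# Dedekind domains with arbitrary fraction field
-/

set_option autoImplicit false

namespace Pool.Agent.U975.RG

open Pool.Agent.W258.FM Function Pool.Agent.U975.RM Pool.Agent.U975.RE

section basics

variable {A K F B : Type} [CommRing A] [IsDedekindDomain A] [Field K] [Algebra A K]
  [IsFractionRing A K] [Field F] [Algebra K F] [Algebra A F] [IsScalarTower A K F]
  [FiniteDimensional K F] [IsGalois K F] [CommRing B] [Algebra A B] [Algebra B F]
  [IsScalarTower A B F] [IsIntegralClosure B A F] [MulSemiringAction Gal(F/K) B]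

omit [IsDedekindDomain A] [IsGalois K F] in
theorem faithful_gen (A : Type) [CommRing A] [IsDomain A] [Algebra A K]
    [IsFractionRing A K] [Algebra A F] [IsScalarTower A K F] [Algebra A B]
    [IsScalarTower A B F] [IsIntegralClosure B A F]
    (hB : ∀ (g : Gal(F/K)) (b : B), algebraMap B F (g • b) = g (algebraMap B F b)) :
    FaithfulSMul Gal(F/K) B := by
  have hdom : IsDomain B := (IsIntegralClosure.algebraMap_injective B A F).isDomain _
  have hfr : IsFractionRing B F := IsIntegralClosure.isFractionRing_of_finite_extension A K F B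
  constructor
  intro g g' h
  ext x
  obtain ⟨b, c, -, rfl⟩ := IsFractionRing.div_surjective (A := B) x
  rw [map_div₀, map_div₀, ← hB, ← hB, ← hB, ← hB, h, h]

omit [IsDedekindDomain A] [IsFractionRing A K] [FiniteDimensional K F] [IsGalois K F] in
theorem comm_gen (hB : ∀ (g : Gal(F/K)) (b : B), algebraMap B F (g • b) = g (algebraMap B F b)) :
    SMulCommClass Gal(F/K) A B := by
  constructor
  intro g a b
  apply IsIntegralClosure.algebraMap_injective B A F
  rw [hB, Algebra.smul_def, Algebra.smul_def, map_mul, map_mul, map_mul, hB,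
    ← IsScalarTower.algebraMap_apply A B F, IsScalarTower.algebraMap_apply A K F,
    AlgEquiv.commutes]

theorem invariant_gen
    (hB : ∀ (g : Gal(F/K)) (b : B), algebraMap B F (g • b) = g (algebraMap B F b)) :
    Algebra.IsInvariant A B Gal(F/K) := by
  constructor
  intro b hb
  have h1 : algebraMap B F b ∈ Set.range (algebraMap K F) := by
    rw [IsGalois.mem_range_algebraMap_iff_fixed]
    intro g
    rw [← hB, hb]
  obtain ⟨x, hx⟩ := h1
  have h2 : IsIntegral A x := by
    rw [← isIntegral_algHom_iff (IsScalarTower.toAlgHom A K F) (algebraMap K F).injective]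
    show IsIntegral A (algebraMap K F x)
    rw [hx]
    exact (IsIntegralClosure.isIntegral A F b).algebraMap
  obtain ⟨a, ha⟩ := IsIntegrallyClosed.algebraMap_eq_of_integral h2
  refine ⟨a, ?_⟩
  apply IsIntegralClosure.algebraMap_injective B A F
  rw [← IsScalarTower.algebraMap_apply A B F, IsScalarTower.algebraMap_apply A K F, ha, hx]

/-- the residue field is not too large -/
theorem card_le_gen
    (hB : ∀ (g : Gal(F/K)) (b : B), algebraMap B F (g • b) = g (algebraMap B F b))
    (P : Ideal B) (hP : P.IsMaximal) [Finite (B ⧸ P)] :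
    Nat.card (B ⧸ P) ≤ Nat.card (A ⧸ P.under A) ^ Nat.card Gal(F/K) := by
  classical
  have h1 := comm_gen (A := A) hB
  have h2 := invariant_gen (A := A) hB
  have hPp : P.IsPrime := hP.isPrime
  obtain ⟨σ, hσ⟩ := IsArithFrobAt.exists_of_isInvariant A Gal(F/K) P
  set q := Nat.card (A ⧸ P.under A) with hq
  have hfinA : Finite (A ⧸ P.under A) :=
    Finite.of_injective (algebraMap (A ⧸ P.under A) (B ⧸ P)) Ideal.algebraMap_quotient_injective
  have hnt : Nontrivial (A ⧸ P.under A) :=
    Ideal.Quotient.nontrivial_iff.2 (Ideal.IsPrime.under A P).ne_top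
  have hq1 : 1 < q := Finite.one_lt_card
  set n := Nat.card Gal(F/K) with hn
  have hn0 : n ≠ 0 := Nat.card_pos.ne'
  have h3 := frob_pow (q := q) (P := P) (σ := σ) (fun x => hσ x) n
  have h4 : ∀ x : B ⧸ P, x ^ q ^ n = x := by
    intro x
    obtain ⟨y, rfl⟩ := Ideal.Quotient.mk_surjective x
    have h5 := h3 y
    rw [hn, pow_card_eq_one', one_smul, ← hn] at h5
    rw [← map_pow]
    exact ((Ideal.Quotient.eq).2 h5).symm
  let _ : Field (B ⧸ P) := Ideal.Quotient.field _
  let _ : Fintype (B ⧸ P) := Fintype.ofFinite _
  have hqn : 1 < q ^ n := Nat.one_lt_pow hn0 hq1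
  have h6 : (Polynomial.X ^ (q ^ n) - Polynomial.X : Polynomial (B ⧸ P)) ≠ 0 :=
    FiniteField.X_pow_card_sub_X_ne_zero _ hqn
  have h7 : (Finset.univ : Finset (B ⧸ P)) ⊆
      (Polynomial.X ^ (q ^ n) - Polynomial.X : Polynomial (B ⧸ P)).roots.toFinset := by
    intro x _
    rw [Multiset.mem_toFinset, Polynomial.mem_roots h6]
    simp [h4 x]
  rw [Nat.card_eq_fintype_card]
  calc Fintype.card (B ⧸ P) = (Finset.univ : Finset (B ⧸ P)).card := rfl
    _ ≤ _ := Finset.card_le_card h7
    _ ≤ _ := Multiset.toFinset_card_le _
    _ ≤ _ := Polynomial.card_roots' _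
    _ = q ^ n := FiniteField.X_pow_card_sub_X_natDegree_eq _ hqn

end basics

section main

variable {A K F₁ F M B C : Type} [CommRing A] [IsDedekindDomain A] [Field K] [Algebra A K]
  [IsFractionRing A K] [Field F₁] [Algebra K F₁] [FiniteDimensional K F₁] [IsGalois K F₁]
  [Field F] [Algebra K F] [Algebra A F] [IsScalarTower A K F] [Algebra F₁ F]
  [IsScalarTower K F₁ F] [FiniteDimensional K F] [IsGalois K F] [CommRing B] [Algebra A B]
  [Algebra B F] [IsScalarTower A B F] [IsIntegralClosure B A F] [MulSemiringAction Gal(F/K) B]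
  [Field M] [Algebra K M] [Algebra A M] [IsScalarTower A K M] [Algebra F M]
  [IsScalarTower K F M] [FiniteDimensional K M] [IsGalois K M] [CommRing C] [Algebra A C]
  [Algebra C M] [IsScalarTower A C M] [IsIntegralClosure C A M] [MulSemiringAction Gal(M/K) C]
  [Algebra B C] [IsScalarTower A B C]

variable (A) in
include A in
omit [FiniteDimensional K F₁] in
theorem root_gen
    (hB : ∀ (g : Gal(F/K)) (b : B), algebraMap B F (g • b) = g (algebraMap B F b))
    (hC : ∀ (g : Gal(M/K)) (c : C), algebraMap C M (g • c) = g (algebraMap C M c))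
    (hBC : ∀ b : B, algebraMap C M (algebraMap B C b) = algebraMap F M (algebraMap B F b))
    {k : ℕ} (hk : 0 < k)
    (hlift : LiftsOn (AlgEquiv.restrictNormalHom (F := K) (K₁ := M) F)
      (AlgEquiv.restrictNormalHom (F := K) (K₁ := F) F₁).ker k)
    (P : Ideal B) (hP : P.IsMaximal) (hP0 : P ≠ ⊥)
    {l : ℕ} (hl : l.Prime) (hlP : (l : B) ∉ P) (hdvd : l ∣ Nat.card (inerGroup (G := Gal(F/K)) P ⊓
      (AlgEquiv.restrictNormalHom (F := K) (K₁ := F) F₁).ker : Subgroup Gal(F/K))) :
    ∃ ζ : B ⧸ P, IsPrimitiveRoot ζ (l ^ k) := by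
  have d1 : IsDomain B := (IsIntegralClosure.algebraMap_injective B A F).isDomain _
  have d2 : IsDomain C := (IsIntegralClosure.algebraMap_injective C A M).isDomain _
  have d3 : IsDedekindDomain B := IsIntegralClosure.isDedekindDomain A K F B
  have d4 : IsDedekindDomain C := IsIntegralClosure.isDedekindDomain A K M C
  have hf1 : FaithfulSMul Gal(F/K) B := faithful_gen A hB
  have hf2 : FaithfulSMul Gal(M/K) C := faithful_gen A hC
  have d7 : Algebra.IsIntegral A C := IsIntegralClosure.isIntegral_algebra A M
  have d8 : Algebra.IsIntegral B C := Algebra.IsIntegral.tower_top A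
  have hinj : Injective (algebraMap B C) := by
    intro x y hxy
    have h1 := hBC x
    rw [hxy, hBC] at h1
    exact (IsIntegralClosure.algebraMap_injective B A F) ((algebraMap F M).injective h1.symm)
  have d9 : FaithfulSMul B C := (faithfulSMul_iff_algebraMap_injective B C).2 hinj
  have hLM : IsGalois F M := IsGalois.tower_top_of_isGalois K F M
  have hfdM : FiniteDimensional F M := Module.Finite.of_restrictScalars_finite K F M
  set res := AlgEquiv.restrictNormalHom (F := K) (K₁ := M) F with hres
  have hc : ∀ (g : Gal(M/K)) (b : B), algebraMap B C (res g • b) =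
      g • algebraMap B C b := by
    intro g b
    apply IsIntegralClosure.algebraMap_injective C A M
    rw [hBC, hB, hC, hBC]
    exact AlgEquiv.restrictNormal_commutes g F _
  have hinv : ∀ c : C, (∀ g : Gal(M/K), res g = 1 → g • c = c) →
      ∃ b : B, algebraMap B C b = c := by
    intro c hcf
    have h1 : (algebraMap C M c) ∈ Set.range (algebraMap F M) := by
      rw [IsGalois.mem_range_algebraMap_iff_fixed]
      intro f
      have h2 : res (f.restrictScalars K) = 1 := by
        ext x
        apply (algebraMap F M).injective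
        have h3 : algebraMap F M (res (f.restrictScalars K) x) =
            (f.restrictScalars K) (algebraMap F M x) :=
          AlgEquiv.restrictNormal_commutes _ F x
        rw [h3]
        exact f.commutes x
      have h4 := congrArg (algebraMap C M) (hcf _ h2)
      rw [hC] at h4
      exact h4
    obtain ⟨b, hb⟩ := h1
    have tFM : IsScalarTower A F M := IsScalarTower.of_algebraMap_eq (by
      intro a
      rw [IsScalarTower.algebraMap_apply A K M, IsScalarTower.algebraMap_apply A K F,
        ← IsScalarTower.algebraMap_apply K F M])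
    have hbi : IsIntegral A b := by
      rw [← isIntegral_algHom_iff (IsScalarTower.toAlgHom A F M) (algebraMap F M).injective]
      show IsIntegral A (algebraMap F M b)
      rw [hb]
      exact (IsIntegralClosure.isIntegral A M c).algebraMap
    obtain ⟨b', hb'⟩ := (IsIntegralClosure.isIntegral_iff (A := B)).1 hbi
    refine ⟨b', ?_⟩
    apply IsIntegralClosure.algebraMap_injective C A M
    rw [hBC, hb', hb]
  exact tame_root (B := B) (C := C) res
    (AlgEquiv.restrictNormalHom_surjective M) hc hinv hk _ hlift P hP hP0 hl hlP hdvd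

end main

section closure

variable {A K F₁ F M : Type} [CommRing A] [IsDedekindDomain A] [Field K] [Algebra A K]
  [IsFractionRing A K] [Field F₁] [Algebra K F₁] [FiniteDimensional K F₁] [IsGalois K F₁]
  [Field F] [Algebra K F] [Algebra A F] [IsScalarTower A K F] [Algebra F₁ F]
  [IsScalarTower K F₁ F] [FiniteDimensional K F] [IsGalois K F]
  [Field M] [Algebra K M] [Algebra F M]
  [IsScalarTower K F M] [FiniteDimensional K M] [IsGalois K M]

/-- the version for integral closures -/
theorem root_closure {k : ℕ} (hk : 0 < k)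
    (hlift : LiftsOn (AlgEquiv.restrictNormalHom (F := K) (K₁ := M) F)
      (AlgEquiv.restrictNormalHom (F := K) (K₁ := F) F₁).ker k)
    (P : Ideal (integralClosure A F)) (hP : P.IsMaximal) (hP0 : P ≠ ⊥)
    {l : ℕ} (hl : l.Prime) (hlP : (l : integralClosure A F) ∉ P)
    (hdvd : l ∣ Nat.card (P.inertia Gal(F/K) ⊓
      (AlgEquiv.restrictNormalHom (F := K) (K₁ := F) F₁).ker : Subgroup Gal(F/K))) :
    ∃ ζ : integralClosure A F ⧸ P, IsPrimitiveRoot ζ (l ^ k) := by
  let aM : Algebra A M := ((algebraMap K M).comp (algebraMap A K)).toAlgebra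
  have tM : IsScalarTower A K M := IsScalarTower.of_algebraMap_eq (fun _ => rfl)
  have tFM : IsScalarTower A F M := IsScalarTower.of_algebraMap_eq (by
    intro a
    rw [IsScalarTower.algebraMap_apply A K M, IsScalarTower.algebraMap_apply A K F,
      ← IsScalarTower.algebraMap_apply K F M])
  have hmem : ∀ b : integralClosure A F, algebraMap F M (b : F) ∈ integralClosure A M := by
    intro b
    exact (b.2 : IsIntegral A (b : F)).algebraMap
  let f : integralClosure A F →+* integralClosure A M :=
    { toFun := fun b => ⟨algebraMap F M (b : F), hmem b⟩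
      map_one' := by apply Subtype.ext; simp
      map_mul' := by intro x y; apply Subtype.ext; simp
      map_zero' := by apply Subtype.ext; simp
      map_add' := by intro x y; apply Subtype.ext; simp }
  let aBC : Algebra (integralClosure A F) (integralClosure A M) := f.toAlgebra
  have tABC : IsScalarTower A (integralClosure A F) (integralClosure A M) :=
    IsScalarTower.of_algebraMap_eq (by
      intro a
      apply Subtype.ext
      exact IsScalarTower.algebraMap_apply A F M a)
  refine root_gen (A := A) (B := integralClosure A F) (C := integralClosure A M) (M := M) (F₁ := F₁)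
    (fun _ _ => rfl) (fun _ _ => rfl) (fun _ => rfl) hk hlift P hP hP0 hl hlP ?_
  exact hdvd

/-- the residue field is not too large -/
theorem card_le_closure (P : Ideal (integralClosure A F)) (hP : P.IsMaximal)
    [Finite (integralClosure A F ⧸ P)] :
    Nat.card (integralClosure A F ⧸ P) ≤ Nat.card (A ⧸ P.under A) ^ Nat.card Gal(F/K) :=
  card_le_gen (A := A) (B := integralClosure A F) (fun _ _ => rfl) P hP

end closure

end Pool.Agent.U975.RG
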