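import Pool.Agent.U975.RG.Tame
import Pool.Agent.U975.RE.Cover

/-!
# Roots of unity in residue fields
-/

set_option autoImplicit false

namespace Pool.Agent.U975.RG

open Pool.Agent.W258.FM Function Pool.Agent.U975.RM Pool.Agent.U975.RE
open scoped Pointwise

/-- separable elements fixed by all automorphisms of a normal extension are in the base field -/
theorem root_descends {κ E : Type*} [Field κ] [Field E] [Algebra κ E] [Normal κ E] {ζ : E} {n : ℕ}
    (hn : (n : κ) ≠ 0) (hζ : IsPrimitiveRoot ζ n) (hfix : ∀ σ : Gal(E/κ), σ ζ = ζ) :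
    ∃ ζ' : κ, IsPrimitiveRoot ζ' n ∧ algebraMap κ E ζ' = ζ := by
  have hsep : IsSeparable κ ζ := by
    have h1 : (Polynomial.X ^ n - 1 : Polynomial κ).Separable :=
      Polynomial.X_pow_sub_one_separable_iff.2 hn
    refine h1.of_dvd (minpoly.dvd κ ζ ?_)
    simp [hζ.pow_eq_one]
  have hmem : ζ ∈ (⊥ : Subalgebra κ E) := by
    by_contra hcon
    rw [notMem_iff_exists_ne_and_isConjRoot hsep (Normal.splits inferInstance ζ)] at hcon
    obtain ⟨y, hy, hc⟩ := hcon
    obtain ⟨σ, hσ⟩ := isConjRoot_iff_exists_algEquiv.1 hc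
    apply hy
    have h1 : σ.symm ζ = y := by rw [← hσ]; exact σ.symm_apply_apply y
    rw [← h1, hfix]
  obtain ⟨ζ', hζ'⟩ := Algebra.mem_bot.1 hmem
  exact ⟨ζ', IsPrimitiveRoot.of_map_of_injective (hζ'.symm ▸ hζ) (algebraMap κ E).injective, hζ'⟩

/-- the tame quotient of a subgroup of the inertia group is cyclic -/
theorem exists_tame_char {R : Type*} [CommRing R] [IsDedekindDomain R] {G : Type*} [Group G]
    [MulSemiringAction G R] [FaithfulSMul G R] [Finite G] {P : Ideal R} (hP : P.IsMaximal)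
    (h0 : P ≠ ⊥) {l : ℕ} (hl : l.Prime) (hlP : (l : R) ∉ P)
    (S : Subgroup G) (hS : S ≤ inerGroup (G := G) P) (hdvd : l ∣ Nat.card S) :
    ∃ ρ : S →* Multiplicative (ZMod l), Surjective ρ := by
  classical
  obtain ⟨θ, h1, -⟩ := exists_theta (G := G) hP h0
  have : IsDomain (R ⧸ P) := Ideal.Quotient.isDomain P
  set θ' : S →* (R ⧸ P)ˣ := θ.toHomUnits.comp (Subgroup.inclusion hS) with hθ'
  set C := θ'.range with hC
  have hfinC : Finite C :=
    Finite.of_surjective θ'.rangeRestrict θ'.rangeRestrict_surjective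
  have hcyc : IsCyclic C := isCyclic_subgroup_units C
  have hker : ¬ l ∣ Nat.card θ'.ker := by
    intro hd
    have hfl : Fact l.Prime := ⟨hl⟩
    obtain ⟨x, hx⟩ := exists_prime_orderOf_dvd_card' l hd
    have hx1 : θ (Subgroup.inclusion hS x) = 1 := by
      have h2 : θ' x = 1 := x.2
      exact congrArg Units.val h2
    obtain ⟨m, hm, hm1⟩ := h1 l hl hlP _ hx1
    apply hm
    rw [← hx]
    apply orderOf_dvd_of_pow_eq_one
    apply Subtype.ext
    apply Subtype.ext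
    have h3 := congrArg (fun x : inerGroup (G := G) P => (x : G)) hm1
    exact h3
  have hcard : Nat.card S = Nat.card C * Nat.card θ'.ker := by
    rw [← Subgroup.index_mul_card θ'.ker, Subgroup.index_ker]
  have hlC : l ∣ Nat.card C := by
    rw [hcard, hl.dvd_mul] at hdvd
    exact hdvd.resolve_right hker
  obtain ⟨ρ, hρ⟩ := exists_char C hlC
  exact ⟨ρ.comp θ'.rangeRestrict, hρ.comp θ'.rangeRestrict_surjective⟩

/-- an additive computation -/
lemma unit_of_lift {l k : ℕ} (hl : l.Prime) (hk : 0 < k) {x : Multiplicative (ZMod (l ^ k))}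
    (h : red l k hk x ≠ 1) {n : ℕ} (hn : x ^ n = 1) : l ^ k ∣ n := by
  obtain ⟨a, ha⟩ : ∃ a : ZMod (l ^ k), a = Multiplicative.toAdd x := ⟨_, rfl⟩
  have hlk : NeZero (l ^ k) := ⟨(pow_pos hl.pos k).ne'⟩
  have h6 : IsUnit a := by
    have h7 : ¬ l ∣ a.val := by
      intro h8
      apply h
      have h9 : ((a.val : ℕ) : ZMod (l ^ k)) = a := ZMod.natCast_zmod_val a
      have : (ZMod.castHom (dvd_pow_self l hk.ne') (ZMod l)) a = 0 := by
        rw [← h9, map_natCast, ZMod.natCast_eq_zero_iff]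
        exact h8
      rw [ha] at this
      exact this
    rw [← ZMod.natCast_zmod_val a, ZMod.isUnit_iff_coprime]
    exact (Nat.Coprime.pow_right k ((Nat.Prime.coprime_iff_not_dvd hl).2 h7).symm)
  have h1 : (n : ZMod (l ^ k)) * a = 0 := by
    have h2 := congrArg Multiplicative.toAdd hn
    rw [toAdd_pow, nsmul_eq_mul] at h2
    rw [ha]
    exact h2
  have h10 : (n : ZMod (l ^ k)) = 0 := h6.mul_left_eq_zero.1 h1
  exact (ZMod.natCast_eq_zero_iff _ _).1 h10

/-- elements of order prime to `l` die -/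
lemma eq_one_of_pow {l k : ℕ} (hl : l.Prime) {x : Multiplicative (ZMod (l ^ k))} {m : ℕ}
    (hm : ¬ l ∣ m) (h : x ^ m = 1) : x = 1 := by
  have h1 : x ^ (l ^ k) = 1 := by
    have : Multiplicative.toAdd (x ^ (l ^ k)) = 0 := by
      rw [toAdd_pow, nsmul_eq_mul, CharP.cast_eq_zero, zero_mul]
    exact this
  have h2 : Nat.Coprime m (l ^ k) :=
    (Nat.Coprime.pow_right k ((Nat.Prime.coprime_iff_not_dvd hl).2 hm).symm)
  have h4 := pow_gcd_eq_one.2 ⟨h, h1⟩
  rwa [h2.gcd_eq_one, pow_one] at h4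

/-- the root of unity in the residue field of `C` -/
theorem exists_root {C : Type*} [CommRing C] [IsDedekindDomain C] {H Γ : Type} [Group H]
    [Group Γ] [Finite Γ] [MulSemiringAction Γ C] [FaithfulSMul Γ C] (res : Γ →* H) {k : ℕ}
    (hk : 0 < k) (N : Subgroup H) (hlift : LiftsOn res N k) {Q : Ideal C} (hQ : Q.IsMaximal)
    (hQ0 : Q ≠ ⊥) {l : ℕ} (hl : l.Prime) (hlQ : (l : C) ∉ Q) (S : Subgroup H) (hSN : S ≤ N)
    (ρ : S →* Multiplicative (ZMod l)) {z : Γ} (hz : Iner Q z) (hzS : res z ∈ S)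
    (hρ : ρ ⟨res z, hzS⟩ ≠ 1) :
    ∃ ζ : C ⧸ Q, IsPrimitiveRoot ζ (l ^ k) ∧ ∀ g : Γ, res g = 1 → (∀ x ∈ Q, g • x ∈ Q) →
      (∀ x ∈ Q, g⁻¹ • x ∈ Q) → ∀ t : C, ζ = Ideal.Quotient.mk Q t →
        Ideal.Quotient.mk Q (g • t) = ζ := by
  classical
  obtain ⟨θ, h1, h2⟩ := exists_theta (G := Γ) hQ hQ0
  obtain ⟨χ, hχ⟩ := hlift hk S hSN l hl ρ
  have hdom : IsDomain (C ⧸ Q) := Ideal.Quotient.isDomain Q
  set τ : inerGroup (G := Γ) Q := ⟨z, hz⟩ with hτ
  set z' : S.comap res := ⟨z, hzS⟩ with hz'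
  have hred : red l k hk (χ z') ≠ 1 := by rw [hχ]; exact hρ
  set n := orderOf (θ.toHomUnits τ) with hn
  have hn0 : 0 < n := by
    rw [hn]
    have : IsOfFinOrder (θ.toHomUnits τ) :=
      MonoidHom.isOfFinOrder θ.toHomUnits (isOfFinOrder_of_finite τ)
    exact this.orderOf_pos
  have hθn : (θ τ) ^ n = 1 := by
    have := pow_orderOf_eq_one (θ.toHomUnits τ)
    exact congrArg Units.val this
  have hprim : IsPrimitiveRoot (θ τ) n := by
    have h3 : IsPrimitiveRoot (θ.toHomUnits τ) n := IsPrimitiveRoot.orderOf _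
    exact IsPrimitiveRoot.coe_units_iff.2 h3
  -- `l ^ k` divides `n`
  have hdvd : l ^ k ∣ n := by
    obtain ⟨m, hm, hm1⟩ := h1 l hl hlQ (τ ^ n) (by rw [map_pow, hθn])
    have h4 : (χ z') ^ (n * m) = 1 := by
      rw [← map_pow]
      have : z' ^ (n * m) = 1 := by
        apply Subtype.ext
        rw [pow_mul]
        have h5 := congrArg (fun x : inerGroup (G := Γ) Q => (x : Γ)) hm1
        exact h5
      rw [this, map_one]
    have h5 := unit_of_lift hl hk hred h4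
    exact (Nat.Coprime.pow_left k ((Nat.Prime.coprime_iff_not_dvd hl).2 hm)).dvd_of_dvd_mul_right h5
  obtain ⟨d, hd⟩ := hdvd
  have hd0 : d ≠ 0 := by
    rintro rfl
    rw [mul_zero] at hd
    omega
  have hζ : IsPrimitiveRoot (θ τ ^ d) (l ^ k) := by
    refine hprim.pow hn0 ?_
    rw [hd]
    ring
  refine ⟨θ τ ^ d, hζ, ?_⟩
  intro g hg1 hg2 hg3 t ht
  obtain ⟨h, hh⟩ := h2 g hg2 hg3 τ
  obtain ⟨s, hs⟩ := Ideal.Quotient.mk_surjective (I := Q) (θ τ)
  set τ' : inerGroup (G := Γ) Q := ⟨g * τ * g⁻¹, h⟩ with hτ'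
  have h3 : θ τ' = Ideal.Quotient.mk Q (g • s) := hh s hs.symm
  have h4 : (θ τ') ^ n = 1 := by
    rw [h3, ← map_pow, ← smul_pow']
    have h5 : s ^ n - 1 ∈ Q := by
      rw [← Ideal.Quotient.eq, map_pow, hs, hθn, map_one]
    have h6 := hg2 _ h5
    rw [smul_sub, smul_one] at h6
    rw [← map_one (Ideal.Quotient.mk Q)]
    exact Ideal.Quotient.eq.2 h6
  have hn1 : NeZero n := ⟨hn0.ne'⟩
  obtain ⟨a, -, ha⟩ := hprim.eq_pow_of_pow_eq_one h4
  -- `a ≡ 1` modulo `l ^ k`
  obtain ⟨m, hm, hm1⟩ := h1 l hl hlQ ((τ ^ a)⁻¹ * τ') (by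
    rw [map_mul, ← ha, ← map_pow, ← map_mul, inv_mul_cancel, map_one])
  have hgS : g ∈ S.comap res := by
    rw [Subgroup.mem_comap, hg1]
    exact S.one_mem
  set g' : S.comap res := ⟨g, hgS⟩ with hg'
  have h7 : (χ ((z' ^ a)⁻¹ * (g' * z' * g'⁻¹))) ^ m = 1 := by
    rw [← map_pow]
    have : ((z' ^ a)⁻¹ * (g' * z' * g'⁻¹)) ^ m = 1 := by
      apply Subtype.ext
      have h5 := congrArg (fun x : inerGroup (G := Γ) Q => (x : Γ)) hm1
      exact h5
    rw [this, map_one]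
  have h8 := eq_one_of_pow hl hm h7
  rw [map_mul, map_mul, map_mul, map_inv, map_inv, map_pow, mul_comm (χ g') (χ z'),
    mul_inv_cancel_right] at h8
  have h9 : χ z' = (χ z') ^ a := (inv_mul_eq_one.1 h8).symm
  -- conclusion
  have h10 : (θ τ ^ d) ^ a = θ τ ^ d := by
    rcases Nat.eq_zero_or_pos a with h0 | hpos
    · exfalso
      rw [h0, pow_zero] at h9
      exact hred (by rw [h9, map_one])
    · have h11 : (χ z') ^ (a - 1) = 1 := by
        have h12 : (χ z') ^ (a - 1) * χ z' = 1 * χ z' := by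
          rw [← pow_succ, Nat.sub_add_cancel hpos, one_mul]
          exact h9.symm
        exact mul_right_cancel h12
      obtain ⟨b, hb⟩ := unit_of_lift hl hk hred h11
      have h13 : a = l ^ k * b + 1 := by omega
      rw [h13, pow_succ, pow_mul (θ τ ^ d), hζ.pow_eq_one, one_pow, one_mul]
  have h14 : Ideal.Quotient.mk Q (g • t) = Ideal.Quotient.mk Q (g • (s ^ d)) := by
    rw [Ideal.Quotient.eq, ← smul_sub]
    apply hg2
    rw [← Ideal.Quotient.eq, ← ht, map_pow, hs]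
  rw [h14, smul_pow', map_pow, ← h3, ← ha, ← pow_mul, mul_comm a d, pow_mul]
  exact h10

end Pool.Agent.U975.RG
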