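import Pool.Agent.W258.FM.TameFin

/-!
# The tame quotient of an inertia group, with arbitrary residue fields
-/

set_option autoImplicit false

namespace Pool.Agent.U975.RG

open Pool.Agent.W258.FM Function

section general

variable {R : Type*} [CommRing R] [IsDedekindDomain R] {G : Type*} [Group G]
  [MulSemiringAction G R] [FaithfulSMul G R]

omit [IsDedekindDomain R] [FaithfulSMul G R] in
lemma triv_pow {P : Ideal R} {γ : G} (h1 : Iner P γ) (h2 : ∀ y ∈ P, γ • y - y ∈ P ^ 2) (j : ℕ) :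
    ∀ y ∈ P, (γ ^ j) • y - y ∈ P ^ 2 := by
  induction j with
  | zero => intro y _; simp
  | succ j ih =>
    intro y hy
    have e : (γ ^ (j + 1)) • y - y = γ • ((γ ^ j) • y - y) + (γ • y - y) := by
      rw [pow_succ', mul_smul, smul_sub]; ring
    rw [e]
    exact Ideal.add_mem _ (smul_pow_mem h1.mem 2 _ (ih y hy)) (h2 y hy)

/-- an element of the inertia group acting trivially on `P / P ^ 2` has order prime to all the
integers which are invertible modulo `P` -/
lemma wild_order [Finite G] {P : Ideal R} (hP : P.IsMaximal) {l : ℕ} (hl : l.Prime)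
    (hlP : (l : R) ∉ P) {γ : G} (h1 : Iner P γ) (h2 : ∀ y ∈ P, γ • y - y ∈ P ^ 2) :
    ∃ m : ℕ, ¬ l ∣ m ∧ γ ^ m = 1 := by
  have hn : orderOf γ ≠ 0 := (orderOf_pos γ).ne'
  obtain ⟨c, m, hm, hcm⟩ := Nat.exists_eq_pow_mul_and_not_dvd hn l hl.ne_one
  refine ⟨m, hm, key (N := l ^ c) hP ?_ ?_ (h1.pow _) (triv_pow h1 h2 _)⟩
  · intro hmP
    rw [Nat.cast_pow] at hmP
    exact hlP (hP.isPrime.mem_of_pow_mem _ hmP)
  · rw [← pow_mul, mul_comm m, ← hcm, pow_orderOf_eq_one]

/-- the character of the inertia group -/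
theorem exists_theta [Finite G] {P : Ideal R} (hP : P.IsMaximal) (h0 : P ≠ ⊥) :
    ∃ θ : inerGroup (G := G) P →* R ⧸ P,
      (∀ l : ℕ, l.Prime → (l : R) ∉ P → ∀ τ, θ τ = 1 → ∃ m : ℕ, ¬ l ∣ m ∧ τ ^ m = 1) ∧
      ∀ σ : G, (∀ x ∈ P, σ • x ∈ P) → (∀ x ∈ P, σ⁻¹ • x ∈ P) → ∀ τ : inerGroup (G := G) P,
        ∃ h : σ * τ * σ⁻¹ ∈ inerGroup (G := G) P, ∀ t : R, θ τ = Ideal.Quotient.mk P t →
          θ ⟨σ * τ * σ⁻¹, h⟩ = Ideal.Quotient.mk P (σ • t) := by
  obtain ⟨π, hπ, hπ2, hsp⟩ := exists_unif hP.isPrime h0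
  have hex : ∀ τ : inerGroup (G := G) P, ∃ u : R, (τ : G) • π - u * π ∈ P ^ 2 := fun τ =>
    hsp _ (Iner.mem τ.2 π hπ)
  choose θ hθ using hex
  have huniq : ∀ (g : G) (u v : R), g • π - u * π ∈ P ^ 2 → g • π - v * π ∈ P ^ 2 →
      Ideal.Quotient.mk P u = Ideal.Quotient.mk P v := by
    intro g u v hu hv
    rw [Ideal.Quotient.eq]
    refine cancel_unif hP hπ hπ2 ?_
    have e : (u - v) * π = (g • π - v * π) - (g • π - u * π) := by ring
    rw [e]
    exact Ideal.sub_mem _ hv hu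
  let f : inerGroup (G := G) P →* R ⧸ P :=
    { toFun := fun τ => Ideal.Quotient.mk P (θ τ)
      map_one' := by
        rw [← map_one (Ideal.Quotient.mk P)]
        exact huniq 1 _ _ (by simpa using hθ 1) (by simp)
      map_mul' := by
        intro a b
        rw [← map_mul]
        refine huniq ((a * b : inerGroup (G := G) P) : G) _ _ (hθ _) ?_
        have e : ((a * b : inerGroup (G := G) P) : G) • π - (θ a * θ b) * π =
            ((a : G) • ((b : G) • π) - θ a * ((b : G) • π)) +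
              θ a * ((b : G) • π - θ b * π) := by
          rw [Subgroup.coe_mul, mul_smul]; ring
        rw [e]
        refine Ideal.add_mem _ ?_ (Ideal.mul_mem_left _ _ (hθ b))
        exact mult_all hπ hsp a.2 (hθ a) _ (Iner.mem b.2 π hπ) }
  refine ⟨f, ?_, ?_⟩
  · intro l hl hlP τ hτ
    obtain ⟨m, hm, hm1⟩ := wild_order hP hl hlP τ.2 (by
      intro y hy
      have h1 : θ τ - 1 ∈ P := by
        have : Ideal.Quotient.mk P (θ τ) = Ideal.Quotient.mk P 1 := by rw [map_one]; exact hτ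
        exact (Ideal.Quotient.eq).1 this
      have h2 := mult_all hπ hsp τ.2 (hθ τ) y hy
      have e : (τ : G) • y - y = ((τ : G) • y - θ τ * y) + (θ τ - 1) * y := by ring
      rw [e]
      refine Ideal.add_mem _ h2 ?_
      rw [pow_two]; exact Ideal.mul_mem_mul h1 hy)
    exact ⟨m, hm, Subtype.ext hm1⟩
  · intro σ hσP hσiP τ
    have hconj : Iner P (σ * τ * σ⁻¹) := by
      intro x
      have e : (σ * τ * σ⁻¹) • x - x = σ • ((τ : G) • (σ⁻¹ • x) - σ⁻¹ • x) := by
        rw [smul_sub, smul_inv_smul, mul_smul, mul_smul]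
      rw [e]
      exact hσP _ (τ.2 _)
    refine ⟨hconj, ?_⟩
    intro t ht
    have ht' : θ τ - t ∈ P := (Ideal.Quotient.eq).1 ht
    have ht'' : (τ : G) • π - t * π ∈ P ^ 2 := by
      have e : (τ : G) • π - t * π = ((τ : G) • π - θ τ * π) + (θ τ - t) * π := by ring
      rw [e]
      refine Ideal.add_mem _ (hθ τ) ?_
      rw [pow_two]; exact Ideal.mul_mem_mul ht' hπ
    have hcm : (σ * τ * σ⁻¹) • π - (σ • t) * π ∈ P ^ 2 := by
      have h1 := mult_all hπ hsp τ.2 ht'' (σ⁻¹ • π) (hσiP π hπ)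
      have h2 := smul_pow_mem hσP 2 _ h1
      rw [smul_sub, smul_mul', smul_inv_smul] at h2
      rw [mul_smul, mul_smul]
      exact h2
    exact huniq (σ * τ * σ⁻¹) _ _ (hθ ⟨σ * τ * σ⁻¹, hconj⟩) hcm

end general

end Pool.Agent.U975.RG
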